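import Mathlib
import Pool.Agent.Lib_helper37.SqE.Final

/-!
# The positive square energy of maximal planar graphs: bounded degree

`Tri G` (Pool/Agent/Lib_helper37/SqE/Defs.lean) lists four properties of every maximal planar graph
`G` on `n ≥ 4` vertices: there are `3 n - 6` edges; any `k ≥ 3` vertices span at most `3 k - 6`
edges; any bipartite subgraph on `k ≥ 3` vertices has at most `2 k - 4` edges; if `k ≥ 4` vertices
span `3 k - 6` edges then they induce a maximal planar graph and each of its edges lies in at least
two triangles of it. `sPlus G` is the positive square energy `s⁺(G)`.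

For every graph with these properties `s⁺(G) ≥ 3 n` if the maximum degree is at most `Δ` and
`n ≥ N` for `(Δ, N)` in `(6, 12), (7, 13), (8, 15), (9, 16), (10, 18), (11, 20), (12, 23),
(13, 28), (14, 34), (15, 44), (16, 62), (17, 105), (18, 324)`.

Proof. For a symmetric matrix `A` and `P = c (s + A)²`, which is positive semidefinite,
`tr (P A) ≤ √(s⁺) ‖P‖`, so `s⁺ ≥ (4 s m + T)² / (s⁴ n + 12 s² m + 4 s T + q)` with `T = tr A³` and
`q = tr A⁴`. Every edge is in at least two triangles, and an edge at a vertex of degree three is in
more, which bounds `T` from below; `q` is the sum of the squares of the codegrees, which is bounded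
from above, row by row, by the planar bounds for the number of edges.
-/

set_option autoImplicit false

open Pool.Agent.SqE

namespace Pool.Agent.Results.MP_37726f_co.BoundedDegree

theorem result {V : Type} [Fintype V] [DecidableEq V] (G : SimpleGraph V) [DecidableRel G.Adj]
    (h : Tri G) :
    ∀ p ∈ ([(6, 12), (7, 13), (8, 15), (9, 16), (10, 18), (11, 20), (12, 23), (13, 28), (14, 34),
        (15, 44), (16, 62), (17, 105), (18, 324)] : List (ℕ × ℕ)),
      (∀ v, G.degree v ≤ p.1) → p.2 ≤ Fintype.card V →
        3 * (Fintype.card V : ℝ) ≤ sPlus G := by
  intro p hp hD hN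
  simp only [List.mem_cons, List.not_mem_nil, or_false] at hp
  rcases hp with rfl | rfl | rfl | rfl | rfl | rfl | rfl | rfl | rfl | rfl | rfl | rfl | rfl
  · exact bounded G 6 (9 / 4) 12 (by norm_num) row6 h (by simp only at hN; omega)
      (by exact_mod_cast hN) (fun v => by exact_mod_cast hD v)
  · exact bounded G 7 (9 / 4) 13 (by norm_num) row7 h (by simp only at hN; omega)
      (by exact_mod_cast hN) (fun v => by exact_mod_cast hD v)
  · exact bounded G 8 (5 / 2) 15 (by norm_num) row8 h (by simp only at hN; omega)
      (by exact_mod_cast hN) (fun v => by exact_mod_cast hD v)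
  · exact bounded G 9 (5 / 2) 16 (by norm_num) row9 h (by simp only at hN; omega)
      (by exact_mod_cast hN) (fun v => by exact_mod_cast hD v)
  · exact bounded G 10 (5 / 2) 18 (by norm_num) row10 h (by simp only at hN; omega)
      (by exact_mod_cast hN) (fun v => by exact_mod_cast hD v)
  · exact bounded G 11 (13 / 5) 20 (by norm_num) row11 h (by simp only at hN; omega)
      (by exact_mod_cast hN) (fun v => by exact_mod_cast hD v)
  · exact bounded G 12 (8 / 3) 23 (by norm_num) row12 h (by simp only at hN; omega)
      (by exact_mod_cast hN) (fun v => by exact_mod_cast hD v)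
  · exact bounded G 13 (14 / 5) 28 (by norm_num) row13 h (by simp only at hN; omega)
      (by exact_mod_cast hN) (fun v => by exact_mod_cast hD v)
  · exact bounded G 14 (14 / 5) 34 (by norm_num) row14 h (by simp only at hN; omega)
      (by exact_mod_cast hN) (fun v => by exact_mod_cast hD v)
  · exact bounded G 15 (14 / 5) 44 (by norm_num) row15 h (by simp only at hN; omega)
      (by exact_mod_cast hN) (fun v => by exact_mod_cast hD v)
  · exact bounded G 16 3 62 (by norm_num) row16 h (by simp only at hN; omega)
      (by exact_mod_cast hN) (fun v => by exact_mod_cast hD v)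
  · exact bounded G 17 3 105 (by norm_num) row17 h (by simp only at hN; omega)
      (by exact_mod_cast hN) (fun v => by exact_mod_cast hD v)
  · exact bounded G 18 (31 / 10) 324 (by norm_num) row18 h (by simp only at hN; omega)
      (by exact_mod_cast hN) (fun v => by exact_mod_cast hD v)

end Pool.Agent.Results.MP_37726f_co.BoundedDegree
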