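import Mathlib
import Pool.Agent.Lib_helper37.SqE.Final

/-!
# The positive square energy of maximal planar graphs: few vertices of high degree

`Tri G` (Pool/Agent/Lib_helper37/SqE/Defs.lean) lists four properties of every maximal planar graph
`G` on `n ≥ 4` vertices: there are `3 n - 6` edges; any `k ≥ 3` vertices span at most `3 k - 6`
edges; any bipartite subgraph on `k ≥ 3` vertices has at most `2 k - 4` edges; if `k ≥ 4` vertices
span `3 k - 6` edges then they induce a maximal planar graph and each of its edges lies in at least
two triangles of it. `sPlus G` is the positive square energy `s⁺(G)`.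

For every graph with these properties on `n ≥ 64` vertices `s⁺(G) ≥ 3 n` if
`4 ∑ d² + 2 ∑_{d > 20} (d - 3) (d - 20) + 2184 ≤ 243 n`, the sums being over the vertices of `G`
and `d` being the degree (the subtraction below is truncated). The maximum degree may be unbounded.

The proof is that of BoundedDegree with `s = 3`: `12 T + tr A⁴` is bounded row by row.
-/

set_option autoImplicit false

open Pool.Agent.SqE

namespace Pool.Agent.Results.MP_37726f_co.DegreeSquares

theorem result {V : Type} [Fintype V] [DecidableEq V] (G : SimpleGraph V) [DecidableRel G.Adj]
    (h : Tri G) (hn : 64 ≤ Fintype.card V)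
    (hs : 4 * ∑ v, G.degree v ^ 2 + 2 * ∑ v, (G.degree v - 3) * (G.degree v - 20) + 2184 ≤
      243 * Fintype.card V) :
    3 * (Fintype.card V : ℝ) ≤ sPlus G := by
  refine squares G h hn ?_
  rw [Finset.sum_add_distrib, ← Finset.mul_sum]
  omega

end Pool.Agent.Results.MP_37726f_co.DegreeSquares
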